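import Pool.Agent.Helper62.NT.Goals

/-! Packet NT-VBAS: basic facts on the quadratic variation (helper4 for helper62). -/

set_option autoImplicit false

noncomputable section

namespace Pool.Agent.Helper4.NT.VBAS

open Filter Topology Pool.Agent.Helper62.NT

lemma qs_nonneg (a : ℕ → ℝ) (n : ℕ) (p : ℕ → ℕ) : 0 ≤ qs a n p :=
  Finset.sum_nonneg fun _ _ => sq_nonneg _

lemma bdd {a : ℕ → ℝ} (h : BV a) :
    BddAbove (Set.range fun c : ℕ × {p : ℕ → ℕ // Monotone p} => Real.sqrt (qs a c.1 c.2.1)) := by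
  obtain ⟨C, hC⟩ := h
  refine ⟨Real.sqrt C, ?_⟩
  rintro _ ⟨c, rfl⟩
  exact Real.sqrt_le_sqrt (hC c.1 c.2.1 c.2.2)

lemma sqrt_le_V {a : ℕ → ℝ} (h : BV a) (n : ℕ) (p : ℕ → ℕ) (hp : Monotone p) :
    Real.sqrt (qs a n p) ≤ V a :=
  le_ciSup (bdd h) (⟨n, ⟨p, hp⟩⟩ : ℕ × {p : ℕ → ℕ // Monotone p})

lemma V_nonneg (a : ℕ → ℝ) : 0 ≤ V a := Real.iSup_nonneg fun _ => Real.sqrt_nonneg _

lemma qs_le {a : ℕ → ℝ} (h : BV a) (n : ℕ) (p : ℕ → ℕ) (hp : Monotone p) :
    qs a n p ≤ V a ^ 2 := by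
  have h1 := sqrt_le_V h n p hp
  calc qs a n p = Real.sqrt (qs a n p) ^ 2 := (Real.sq_sqrt (qs_nonneg a n p)).symm
    _ ≤ V a ^ 2 := pow_le_pow_left₀ (Real.sqrt_nonneg _) h1 2

lemma V_le {a : ℕ → ℝ} {C : ℝ} (hC : 0 ≤ C) (h : VB a (C ^ 2)) : V a ≤ C := by
  have : Nonempty (ℕ × {p : ℕ → ℕ // Monotone p}) := ⟨⟨0, ⟨id, monotone_id⟩⟩⟩
  refine ciSup_le fun c => ?_
  calc Real.sqrt (qs a c.1 c.2.1) ≤ Real.sqrt (C ^ 2) := Real.sqrt_le_sqrt (h c.1 c.2.1 c.2.2)
    _ = C := Real.sqrt_sq hC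

lemma vb_add {a b : ℕ → ℝ} (ha : BV a) (hb : BV b) :
    VB (fun t => a t + b t) ((V a + V b) ^ 2) := by
  intro n p hp
  have h1 := qs_le ha n p hp
  have h2 := qs_le hb n p hp
  have h3 := sqrt_le_V ha n p hp
  have h4 := sqrt_le_V hb n p hp
  have h5 : ∑ i ∈ Finset.range n, (a (p (i + 1)) - a (p i)) * (b (p (i + 1)) - b (p i)) ≤
      Real.sqrt (qs a n p) * Real.sqrt (qs b n p) :=
    Real.sum_mul_le_sqrt_mul_sqrt _ _ _
  have h6 : Real.sqrt (qs a n p) * Real.sqrt (qs b n p) ≤ V a * V b :=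
    mul_le_mul h3 h4 (Real.sqrt_nonneg _) (V_nonneg a)
  have h7 : qs (fun t => a t + b t) n p = qs a n p + qs b n p +
      2 * ∑ i ∈ Finset.range n, (a (p (i + 1)) - a (p i)) * (b (p (i + 1)) - b (p i)) := by
    unfold qs
    rw [Finset.mul_sum, ← Finset.sum_add_distrib, ← Finset.sum_add_distrib]
    refine Finset.sum_congr rfl fun i _ => ?_
    ring
  rw [h7]
  nlinarith

lemma qs_neg (b : ℕ → ℝ) (n : ℕ) (p : ℕ → ℕ) : qs (fun t => -b t) n p = qs b n p := by
  unfold qs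
  refine Finset.sum_congr rfl fun i _ => ?_
  ring

lemma V_neg (b : ℕ → ℝ) : V (fun t => -b t) = V b := by
  unfold V
  simp only [qs_neg]

lemma BV_neg {b : ℕ → ℝ} (hb : BV b) : BV (fun t => -b t) := by
  obtain ⟨C, hC⟩ := hb
  exact ⟨C, fun n p hp => by rw [qs_neg]; exact hC n p hp⟩

lemma vb_sub {a b : ℕ → ℝ} (ha : BV a) (hb : BV b) :
    VB (fun t => a t - b t) ((V a + V b) ^ 2) := by
  have h := vb_add ha (BV_neg hb)
  rw [V_neg] at h
  exact h

lemma conv {a : ℕ → ℝ} (ha : BV a) : ∃ l, Tendsto a atTop (𝓝 l) := by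
  apply cauchySeq_tendsto_of_complete
  by_contra hnc
  rw [Metric.cauchySeq_iff'] at hnc
  push Not at hnc
  obtain ⟨ε, hε, hf⟩ := hnc
  choose f hf1 hf2 using hf
  set p : ℕ → ℕ := fun i => f^[i] 0 with hpdef
  have hps : ∀ i, p (i + 1) = f (p i) := fun i => Function.iterate_succ_apply' f i 0
  have hp : Monotone p := monotone_nat_of_le_succ fun i => by rw [hps]; exact hf1 (p i)
  obtain ⟨C, hC⟩ := ha
  obtain ⟨n, hn⟩ := exists_nat_gt (C / ε ^ 2)
  have h1 : (n : ℝ) * ε ^ 2 ≤ qs a n p := by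
    have : ∑ _i ∈ Finset.range n, ε ^ 2 ≤ qs a n p := by
      refine Finset.sum_le_sum fun i _ => ?_
      have h2 := hf2 (p i)
      rw [← hps, Real.dist_eq] at h2
      calc ε ^ 2 ≤ |a (p (i + 1)) - a (p i)| ^ 2 := pow_le_pow_left₀ hε.le h2 2
        _ = (a (p (i + 1)) - a (p i)) ^ 2 := sq_abs _
    simpa using this
  have h2 := hC n p hp
  have h3 : C < n * ε ^ 2 := by
    rw [div_lt_iff₀ (by positivity)] at hn
    exact hn
  linarith

lemma abs_le' {a : ℕ → ℝ} (ha : BV a) (s t : ℕ) (hst : s ≤ t) : |a s - a t| ≤ V a := by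
  have hp : Monotone (fun i : ℕ => if i = 0 then s else t) := by
    refine monotone_nat_of_le_succ fun i => ?_
    by_cases hi : i = 0 <;> simp [hi, hst]
  have h1 := qs_le ha 1 _ hp
  have h2 : qs a 1 (fun i : ℕ => if i = 0 then s else t) = (a s - a t) ^ 2 := by
    unfold qs
    simp
    ring
  rw [h2] at h1
  exact abs_le_of_sq_le_sq h1 (V_nonneg a)

lemma endp {a : ℕ → ℝ} (l : ℝ) (ha : BV a) (hl : Tendsto a atTop (𝓝 l)) (n : ℕ) (p : ℕ → ℕ)
    (hp : Monotone p) : qs a n p + (a (p n) - l) ^ 2 ≤ V a ^ 2 := by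
  have key : ∀ m, p n ≤ m → qs a n p + (a (p n) - a m) ^ 2 ≤ V a ^ 2 := by
    intro m hm
    have hq : Monotone (fun i : ℕ => if i ≤ n then p i else m) := by
      refine monotone_nat_of_le_succ fun i => ?_
      by_cases hi : i + 1 ≤ n
      · have hi' : i ≤ n := by omega
        simp only [hi, hi', if_true]
        exact hp (by omega)
      · by_cases hi' : i ≤ n
        · simp only [hi, hi', if_true, if_false]
          exact (hp hi').trans hm
        · simp only [hi, hi', if_false]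
          exact le_rfl
    have h1 := qs_le ha (n + 1) _ hq
    have h2 : qs a (n + 1) (fun i : ℕ => if i ≤ n then p i else m) =
        qs a n p + (a (p n) - a m) ^ 2 := by
      unfold qs
      rw [Finset.sum_range_succ]
      congr 1
      · refine Finset.sum_congr rfl fun i hi => ?_
        have hi' := Finset.mem_range.1 hi
        have e1 : i + 1 ≤ n := hi'
        have e2 : i ≤ n := hi'.le
        simp only [e1, e2, if_true]
      · simp only [le_refl, if_true, show ¬ n + 1 ≤ n from by omega, if_false]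
        ring
    rw [h2] at h1
    exact h1
  have ht : Tendsto (fun m => qs a n p + (a (p n) - a m) ^ 2) atTop
      (𝓝 (qs a n p + (a (p n) - l) ^ 2)) :=
    tendsto_const_nhds.add ((tendsto_const_nhds.sub hl).pow 2)
  exact le_of_tendsto ht (eventually_atTop.2 ⟨p n, key⟩)

lemma V_smul (c : ℝ) (a : ℕ → ℝ) : V (fun t => c * a t) = |c| * V a := by
  have h1 : ∀ (n : ℕ) (p : ℕ → ℕ), Real.sqrt (qs (fun t => c * a t) n p) =
      |c| * Real.sqrt (qs a n p) := by
    intro n p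
    have : qs (fun t => c * a t) n p = c ^ 2 * qs a n p := by
      unfold qs
      rw [Finset.mul_sum]
      refine Finset.sum_congr rfl fun i _ => ?_
      ring
    rw [this, Real.sqrt_mul (sq_nonneg c), Real.sqrt_sq_eq_abs]
  unfold V
  rw [Real.mul_iSup_of_nonneg (abs_nonneg c)]
  simp only [h1]

lemma ev_zero (a : ℕ → ℝ) (K : ℕ) (h : ∀ t, K ≤ t → a t = 0) : BV a := by
  obtain ⟨M, hM0, hM⟩ : ∃ M : ℝ, 0 ≤ M ∧ ∀ t, |a t| ≤ M := by
    refine ⟨∑ t ∈ Finset.range K, |a t|, Finset.sum_nonneg fun _ _ => abs_nonneg _, fun t => ?_⟩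
    by_cases ht : K ≤ t
    · rw [h t ht, abs_zero]
      exact Finset.sum_nonneg fun _ _ => abs_nonneg _
    · exact Finset.single_le_sum (f := fun t => |a t|) (fun _ _ => abs_nonneg _)
        (Finset.mem_range.2 (not_le.1 ht))
  refine ⟨4 * M ^ 2 * K, fun n p hp => ?_⟩
  have step : ∀ y x : ℕ, y ≤ x → (a x - a y) ^ 2 ≤
      4 * M ^ 2 * ((min x K : ℕ) : ℝ) - 4 * M ^ 2 * ((min y K : ℕ) : ℝ) := by
    intro y x hyx
    rcases hyx.eq_or_lt with rfl | hlt
    · simp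
    · by_cases hy : K ≤ y
      · have hx : K ≤ x := hy.trans hyx
        rw [h x hx, h y hy, min_eq_right hx, min_eq_right hy]
        simp
      · push Not at hy
        rw [min_eq_left hy.le]
        have h1 : y + 1 ≤ min x K := le_min hlt hy
        have h2 : ((y : ℝ) + 1) ≤ ((min x K : ℕ) : ℝ) := by exact_mod_cast h1
        have h3 : |a x - a y| ≤ 2 * M := by
          calc |a x - a y| ≤ |a x| + |a y| := abs_sub _ _
            _ ≤ 2 * M := by linarith [hM x, hM y]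
        have h4 : (a x - a y) ^ 2 ≤ 4 * M ^ 2 := by
          calc (a x - a y) ^ 2 = |a x - a y| ^ 2 := (sq_abs _).symm
            _ ≤ (2 * M) ^ 2 := pow_le_pow_left₀ (abs_nonneg _) h3 2
            _ = 4 * M ^ 2 := by ring
        have h5 : 0 ≤ 4 * M ^ 2 := by positivity
        nlinarith
  have h1 : qs a n p ≤ ∑ i ∈ Finset.range n,
      (4 * M ^ 2 * ((min (p (i + 1)) K : ℕ) : ℝ) - 4 * M ^ 2 * ((min (p i) K : ℕ) : ℝ)) :=
    Finset.sum_le_sum fun i _ => step _ _ (hp (Nat.le_succ i))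
  rw [Finset.sum_range_sub (fun i => 4 * M ^ 2 * ((min (p i) K : ℕ) : ℝ))] at h1
  have h2 : ((min (p n) K : ℕ) : ℝ) ≤ K := by exact_mod_cast min_le_right _ _
  have h3 : 0 ≤ 4 * M ^ 2 * ((min (p 0) K : ℕ) : ℝ) := by positivity
  have h5 : 0 ≤ 4 * M ^ 2 := by positivity
  nlinarith

/-- Packet NT-VBAS. -/
theorem t : Pool.Agent.Helper62.NT.S_VBAS := by
  refine ⟨V_nonneg, fun a h n p hp => qs_le h n p hp, fun a C hC h => V_le hC h,
    fun a b ha hb => ⟨⟨_, vb_add ha hb⟩, V_le (add_nonneg (V_nonneg a) (V_nonneg b)) (vb_add ha hb)⟩,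
    fun a b ha hb => ⟨⟨_, vb_sub ha hb⟩, V_le (add_nonneg (V_nonneg a) (V_nonneg b)) (vb_sub ha hb)⟩,
    fun a ha => conv ha, fun a ha s t => ?_, fun a l ha hl n p hp => endp l ha hl n p hp,
    fun c a _ => V_smul c a, ev_zero⟩
  rcases le_total s t with h | h
  · exact abs_le' ha s t h
  · rw [abs_sub_comm]
    exact abs_le' ha t s h

end Pool.Agent.Helper4.NT.VBAS
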